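import Pool.Agent.Lib.MP_36da60_lc.TameC62
import Pool.Agent.Lib.MP_36da60_lc.BalgE25

/-!
# MP_36da60: the fpr-degrees of structures with a computable type

A structure with one binary relation which has a computable nonprincipal type in some computable
presentation does not have more than one but only finitely many fpr-degrees.  This covers all
stable relations (no arbitrarily large half graphs), all structures in which free new elements
exist over every finite set (graphs without a finite dominating set) and all structures with
bounded algebraicity (for example without algebraicity).  The same holds when no element splits
the structure.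
-/

namespace Pool.Agent.Results.MP_36da60_lc.GenericTypes

open Fpr62

/-- If some computable presentation of `(α, E)` has a computable type, then `(α, E)` has an fpr
presentation.  If this holds, or if no element splits `(α, E)`, then `(α, E)` is fpr-categorical
with at most one degree or has infinitely many fpr-degrees.  If `E` is stable or has free new
elements or has bounded algebraicity, then every computable presentation of `(α, E)` has a
computable type. -/
theorem result {α : Type*} (E : α → α → Prop) :
    ((∃ B, IsCompPres E B ∧ HasCompType B) → ∃ B, IsPres E B) ∧
    ((∃ B, IsCompPres E B ∧ HasCompType B) ∨ NoSplitting E →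
      (FprCategorical E ∧ Subsingleton (Degrees E)) ∨
      (¬ FprCategorical E ∧ Infinite (Degrees E))) ∧
    (StableRel E ∨ FreeElements E ∨ BoundedAlg E → ∀ B, IsCompPres E B → HasCompType B) := by
  refine ⟨?_, ?_, ?_⟩
  · rintro ⟨B, hB, hT⟩
    exact (dichotomy_of_compType hB hT).1
  · intro h
    have key : FprCategorical E ∨ Infinite (Degrees E) := by
      rcases h with ⟨B, hB, hT⟩ | hN
      · exact (dichotomy_of_compType hB hT).2
      · by_cases hex : ∃ B, IsPres E B
        · obtain ⟨B, hB⟩ := hex
          exact noSplit_dichotomy hB (noSplit_of_noSplitting hN hB)
        · exact Or.inl fun B C hB _ => absurd ⟨B, hB⟩ hex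
    rcases key with h | h
    · exact Or.inl ⟨h, subsingleton_of_categorical h⟩
    · refine Or.inr ⟨fun hc => ?_, h⟩
      have := subsingleton_of_categorical hc
      exact not_finite (Degrees E)
  · rintro (h | h | h) B hB
    · exact compType_of_stable h hB
    · exact compType_of_free h hB
    · exact compType_of_boundedAlg h hB

end Pool.Agent.Results.MP_36da60_lc.GenericTypes
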