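import Pool.Agent.Lib.MP_36da60_lc.Main27

set_option autoImplicit false

namespace Pool.Agent.Results.MP_36da60_lc.InterchangeableElements

open Pool.Agent.MP_36da60_lc

/-- A structure in a finite relational language with an infinite set of interchangeable elements
has no, exactly one, or infinitely many fpr-degrees. -/
theorem result {k : ℕ} (ar : Fin k → ℕ) {α : Type} [DecidableEq α] (A : Str ar α) (X : Set α)
    (hinf : X.Infinite) (hX : Twin A X) :
    ((∃ Y : Set α, Yᶜ.Finite ∧ Twin A Y) → Subsingleton (Degrees A)) ∧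
    ((¬ ∃ Y : Set α, Yᶜ.Finite ∧ Twin A Y) → Nonempty (FPR A) →
      Infinite (Degrees A) ∧ ∀ l : List (FPR A), ∃ D : FPR A, ∀ C ∈ l, ¬ PrLe C.1 D.1) ∧
    (Subsingleton (Degrees A) ∨ Infinite (Degrees A)) := by
  have h2 : (¬ ∃ Y : Set α, Yᶜ.Finite ∧ Twin A Y) → Nonempty (FPR A) →
      Infinite (Degrees A) ∧ ∀ l : List (FPR A), ∃ D : FPR A, ∀ C ∈ l, ¬ PrLe C.1 D.1 := by
    intro h hne
    refine ⟨infinite_of_not_cofinite A X hinf hX h hne, fun l => ?_⟩
    obtain ⟨B⟩ := hne
    exact exists_not_above A X hinf hX h B l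
  refine ⟨subsingleton_of_cofinite A, h2, ?_⟩
  by_cases h : ∃ Y : Set α, Yᶜ.Finite ∧ Twin A Y
  · exact Or.inl (subsingleton_of_cofinite A h)
  · by_cases hne : Nonempty (FPR A)
    · exact Or.inr (h2 h hne).1
    · left
      constructor
      intro a
      exact absurd ⟨Quotient.out a⟩ hne

end Pool.Agent.Results.MP_36da60_lc.InterchangeableElements
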