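import Pool.Agent.Lib.MP_36da60_lc.DescL27

/-!
# Relational structures: invariant relations, indiscernible sequences and the number of fpr-degrees

A relational structure with universe `ℕ` is given by an arity function `ar` and relations
`R i : (Fin (ar i) → ℕ) → Prop`.
-/

namespace Pool.Agent.Results.MP_36da60_lc.InvariantColouring

open Pool.Agent.Lib.MP_36da60_lc.Desc

theorem descends_of_cond {ar : ℕ → ℕ} {R : Str ar} (hR : Fpr R) (h' : CondCE R) :
    (∃ S : ℕ → Str ar, S 0 = R ∧ (∀ k, Fpr (S k) ∧ Isom R (S k)) ∧ (∀ k, Le (S (k + 1)) (S k)) ∧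
      ∀ j k, j < k → ¬ Le (S j) (S k)) ∧
    ∀ (n : ℕ) (C : Fin n → Str ar), ∃ S : Str ar, Fpr S ∧ Isom R S ∧
      ∀ j, ¬ (Le S (C j) ∧ Le (C j) S) := by
  have main : ∃ S : ℕ → Str ar, S 0 = R ∧ (∀ k, Fpr (S k) ∧ Isom R (S k)) ∧
      (∀ k, Le (S (k + 1)) (S k)) ∧ ∀ j k, j < k → ¬ Le (S j) (S k) := by
    let Q := {S : Str ar // (Fpr S ∧ Isom R S) ∧ CondCE S}
    have hstep : ∀ S : Q, ∃ U : Q, Le U.1 S.1 ∧ ¬ Le S.1 U.1 := by
      rintro ⟨S, ⟨hS, hRS⟩, hc⟩
      obtain ⟨U, hU, h1, h2, h3⟩ := step_condCE hS hc
      exact ⟨⟨U, ⟨hU, hRS.trans h1.isom.symm⟩, h3⟩, h1, h2⟩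
    choose nx hnx using hstep
    let F : ℕ → Q := fun k => Nat.rec ⟨R, ⟨hR, Isom.refl R⟩, h'⟩ (fun _ S => nx S) k
    have hF : ∀ k, F (k + 1) = nx (F k) := fun k => rfl
    refine ⟨fun k => (F k).1, rfl, fun k => (F k).2.1, fun k => ?_, ?_⟩
    · show Le (F (k + 1)).1 (F k).1
      rw [hF]; exact (hnx _).1
    · intro j k hjk hle
      have hdown : ∀ d, Le (F (j + 1 + d)).1 (F (j + 1)).1 := by
        intro d
        induction d with
        | zero => exact Le.refl _
        | succ d ih =>
          refine Le.trans ?_ ih
          show Le (F ((j + 1 + d) + 1)).1 (F (j + 1 + d)).1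
          rw [hF]; exact (hnx _).1
      obtain ⟨d, rfl⟩ := Nat.exists_eq_add_of_le (show j + 1 ≤ k from hjk)
      have h3 : Le (F j).1 (F (j + 1)).1 := hle.trans (hdown d)
      rw [hF] at h3
      exact (hnx _).2 h3
  refine ⟨main, fun n C => ?_⟩
  obtain ⟨S, h0, h1, h2, h3⟩ := main
  by_contra hcon
  push Not at hcon
  choose a ha using fun k => hcon (S k) (h1 k).1 (h1 k).2
  obtain ⟨j, k, hjk, hajk⟩ := Finite.exists_ne_map_eq_of_infinite a
  rcases lt_or_gt_of_ne hjk with hlt | hlt
  · exact h3 j k hlt ((ha j).1.trans (hajk ▸ (ha k).2))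
  · exact h3 k j hlt ((ha k).1.trans (hajk ▸ (ha j).2))

/-- **Theorem.** Let `R` be a fully primitive recursive structure with universe `ℕ` in a relational
language. Suppose that

(a) infinitely many elements have a finite orbit under the automorphism group, or
(b) some primitive recursive equivalence relation on `ℕ` is preserved by all automorphisms, has no
cofinite class, and relates infinitely many `x` to a smaller number, or
(c) some invariant computably enumerable relation `P u v` between lists is satisfied for every `u`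
by lists `v` arbitrarily far away, but is avoided for some `u₀` by a primitive recursive injective
sequence, or
(d) some relation of `R` of arity at least two holds for injective tuples arbitrarily far away, while
for given entries at all places but one the number of these tuples has a primitive recursive bound, or
(e) for every symbol of arity at most two some primitive recursive injective sequence is
indiscernible, and for every other symbol, of arity `n`, over every set of at most `n - 2` elements
some primitive recursive injective sequence is symmetric.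

If `R` is automorphically trivial, it has exactly one fpr-degree. Otherwise its fpr-degrees contain
an infinite strictly descending sequence, and no finite list of presentations meets all of them. -/
theorem result {ar : ℕ → ℕ} (R : Str ar) (hR : Fpr R)
    (h : {x : ℕ | (orbit R x).Finite}.Infinite ∨
      (∃ E : ℕ → ℕ → Prop, InvRelation R E) ∨ AvoidedCE R ∨ FewCompletions R ∨ HasSequences R) :
    (AutTrivial R → ∀ S : Str ar, Isom R S → Le R S ∧ Le S R) ∧
    (¬ AutTrivial R →
      (∃ S : ℕ → Str ar, S 0 = R ∧ (∀ k, Fpr (S k) ∧ Isom R (S k)) ∧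
        (∀ k, Le (S (k + 1)) (S k)) ∧ ∀ j k, j < k → ¬ Le (S j) (S k)) ∧
      ∀ (n : ℕ) (C : Fin n → Str ar), ∃ S : Str ar, Fpr S ∧ Isom R S ∧
        ∀ j, ¬ (Le S (C j) ∧ Le (C j) S)) := by
  refine ⟨fun ht S hS => one_degree ht hS, fun ht => descends_of_cond hR ?_⟩
  rcases h with h | h | h | h | h
  · exact Or.inl h
  · exact Or.inr (Or.inl h)
  · exact Or.inr (Or.inr h)
  · exact Or.inr (Or.inr (avoided_of_few hR h).ce)
  · exact (cond_of_sequences hR h ht).ce hR

end Pool.Agent.Results.MP_36da60_lc.InvariantColouring
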