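import Pool.Agent.Lib.MP_36da60_lc.LinD57

/-!
# MP_36da60: the fpr-degrees of linear orders

No linear order has more than one but only finitely many fpr-degrees: an infinite linear order with
an fpr presentation has infinitely many.
-/

namespace Pool.Agent.Results.MP_36da60_lc.LinearOrders

open Fpr62

/-- A linear order has no fpr presentation or infinitely many fpr-degrees. -/
theorem result {α : Type*} [LinearOrder α] :
    (¬ ∃ B, IsPres (fun x y : α => x < y) B) ∨ Infinite (Degrees (fun x y : α => x < y)) := by
  by_cases h : ∃ B, IsPres (fun x y : α => x < y) B
  · exact Or.inr (linear_order_degrees h)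
  · exact Or.inl h

end Pool.Agent.Results.MP_36da60_lc.LinearOrders
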